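import Pool.Agent.H86.P.PTr
import Pool.Agent.H60.Col.V1

/-! # Module PLow: below `x0 = 27 * 2^19`

`H1Col.V1` (or the namespace used in `Pool/Agent/H60/Col/V1.lean`): for `0 < x < 2^20` `100000 * 2^N ≤ 125315 * 3^od * x`, i.e.
`Good 1.25315 x`. For `2^20 ≤ x < x0` prime to 3, strong induction: even: `good_two`; odd: `x ≡ 1` or `5 mod 6`,
`x = 1048573 + 6 (i+1)` or `x = 1048571 + 6 (i+1)`, the hypotheses `h1`, `h5` give `Desc (2^20) 380 x`, and `good_desc` with
`M = 1.25315` (`X = 2^20`): constant `1.25315 exp (380/(3 * 2^20)) ≤ 1.2533015`. `exp (192/14155776) ≤ 1.0000137`, product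
`≤ 1.25333`. -/

namespace H86P

open H1Col H86V
open H86C (Good)

theorem small_good {x : ℕ} (h0 : 0 < x) (h : x < 1048576) : Good 1.25315 x := by
  obtain ⟨N, h1, h2⟩ := H60Col.V1 x h0 (by norm_num; exact h)
  refine ⟨N, h1, ?_⟩
  have h3 : ((100000 * 2 ^ N : ℕ) : ℝ) ≤ ((125315 * 3 ^ od x N * x : ℕ) : ℝ) := by exact_mod_cast h2
  push_cast at h3
  have h4 : (1.25315 : ℝ) * 3 ^ od x N * x = (125315 * 3 ^ od x N * x) / 100000 := by ring
  rw [h4]
  linarith

private theorem plow_e1 : (1.25315 : ℝ) * Real.exp (((380 : ℕ) : ℝ) / (3 * ((1048576 : ℕ) : ℝ))) ≤ 1.2533015 := by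
  have h1 := Real.exp_bound_div_one_sub_of_interval (x := ((380 : ℕ) : ℝ) / (3 * ((1048576 : ℕ) : ℝ)))
    (by positivity) (by norm_num)
  have h2 : (1.25315 : ℝ) * Real.exp (((380 : ℕ) : ℝ) / (3 * ((1048576 : ℕ) : ℝ))) ≤
      1.25315 * (1 / (1 - ((380 : ℕ) : ℝ) / (3 * ((1048576 : ℕ) : ℝ)))) :=
    mul_le_mul_of_nonneg_left h1 (by norm_num)
  refine h2.trans ?_
  norm_num

private theorem plow_e2 : (1.2533015 : ℝ) * Real.exp (192 / 14155776) ≤ 1.25333 := by
  have h1 := Real.exp_bound_div_one_sub_of_interval (x := (192 / 14155776 : ℝ)) (by norm_num) (by norm_num)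
  have h2 : (1.2533015 : ℝ) * Real.exp (192 / 14155776) ≤ 1.2533015 * (1 / (1 - 192 / 14155776)) :=
    mul_le_mul_of_nonneg_left h1 (by norm_num)
  refine h2.trans ?_
  norm_num

theorem low_hyp (h1 : ∀ i < 2184533, Desc 1048576 380 (1048573 + 6 * (i + 1)))
    (h5 : ∀ i < 2184534, Desc 1048576 380 (1048571 + 6 * (i + 1))) :
    Hyp 1.25333 14155776 := by
  have hsm : ∀ y : ℕ, y % 3 ≠ 0 → y < 1048576 → Good 1.25315 y := fun y hy hlt =>
    small_good (by omega) hlt
  have hlow : ∀ x : ℕ, x % 3 ≠ 0 → x < 14155776 → Good 1.2533015 x := by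
    intro x
    induction x using Nat.strong_induction_on with
    | _ x ih =>
      intro hx hlt
      by_cases hs : x < 1048576
      · exact good_mono (by norm_num) (hsm x hx hs)
      · rcases Nat.mod_two_eq_zero_or_one x with he | ho
        · exact good_two he (ih (x / 2) (by omega) (by omega) (by omega))
        · have hd : Desc 1048576 380 x := by
            have h6 : x % 6 = 1 ∨ x % 6 = 5 := by omega
            rcases h6 with h6 | h6
            · have h7 := h1 ((x - 1048579) / 6) (by omega)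
              have h8 : 1048573 + 6 * ((x - 1048579) / 6 + 1) = x := by omega
              rwa [h8] at h7
            · have h7 := h5 ((x - 1048577) / 6) (by omega)
              have h8 : 1048571 + 6 * ((x - 1048577) / 6 + 1) = x := by omega
              rwa [h8] at h7
          exact good_mono plow_e1 (good_desc (by norm_num) hx (by norm_num) hd hsm)
  refine ⟨by norm_num, ⟨1.2533015, by norm_num, plow_e2, hlow⟩, ?_⟩
  intro x _ h2 h3
  omega

end H86P
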