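import Pool.Agent.H86.P.PChain
import Pool.Agent.H86.P.PLow
import Pool.Agent.H86.V.Pieces
import Pool.Agent.H86.V.K.D1
import Pool.Agent.H86.V.K.D5

/-! # The verified range: all numbers prime to 3 below `243 * 2^28` -/

namespace H86P

open H1Col H86V
open H86C (Good)

theorem stp {M M' : ℝ} {k0 j n X X' : ℕ} (hk : k0 ≤ 29) (hj : 1 ≤ j) (h0 : 14155776 ≤ X)
    (eX : 27 * 2 ^ k0 * j = X) (eX' : 27 * 2 ^ k0 * (j + 1) = X') (h : Hyp M X) (hp : Piece k0 j X n)
    (hn : n ≤ X) (hb : M * (1 + (n : ℝ) / (3 * X) + ((n : ℝ) / (3 * X)) ^ 2) ≤ M') : Hyp M' X' := by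
  subst eX
  subst eX'
  have h1 := piece_step hk hj h0 h hp
  refine hyp_mono h1 (le_trans (mul_le_mul_of_nonneg_left ?_ h.pos.le) hb)
  have hX : (0 : ℝ) < ((27 * 2 ^ k0 * j : ℕ) : ℝ) := by
    have : 0 < 27 * 2 ^ k0 * j := by omega
    exact_mod_cast this
  have hn' : (n : ℝ) ≤ ((27 * 2 ^ k0 * j : ℕ) : ℝ) := by exact_mod_cast hn
  set t : ℝ := (n : ℝ) / (3 * ((27 * 2 ^ k0 * j : ℕ) : ℝ)) with ht
  have ht0 : 0 ≤ t := by positivity
  have ht1 : t ≤ 1 := by
    rw [ht, div_le_one (by positivity)]
    linarith
  have h2 := Real.abs_exp_sub_one_sub_id_le (x := t) (by rw [abs_of_nonneg ht0]; exact ht1)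
  have h3 := (abs_le.mp h2).2
  linarith

theorem dir_1 : ∀ i < 2184533, Desc 1048576 380 (1048573 + 6 * (i + 1)) := by
  intro i hi
  obtain ⟨h0, h1, h2, h3⟩ := dir1
  have e0 := dall_sound (by norm_num) (by norm_num) (by norm_num) (by simp only [List.length_cons, List.length_nil]; norm_num) h0
  have e1 := dall_sound (by norm_num) (by norm_num) (by norm_num) (by simp only [List.length_cons, List.length_nil]; norm_num) h1
  have e2 := dall_sound (by norm_num) (by norm_num) (by norm_num) (by simp only [List.length_cons, List.length_nil]; norm_num) h2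
  have e3 := dall_sound (by norm_num) (by norm_num) (by norm_num) (by simp only [List.length_cons, List.length_nil]; norm_num) h3
  simp only [List.length_cons, List.length_nil] at e0 e1 e2 e3
  clear h0 h1 h2 h3
  rcases Nat.lt_or_ge i 567000 with c | c
  · exact e0 i (by norm_num; exact c)
  rcases Nat.lt_or_ge i 1134000 with c1 | c1
  · have := e1 (i - 567000) (by norm_num; omega)
    rwa [show 4450573 + 6 * (i - 567000 + 1) = 1048573 + 6 * (i + 1) by omega] at this
  rcases Nat.lt_or_ge i 1701000 with c2 | c2
  · have := e2 (i - 1134000) (by norm_num; omega)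
    rwa [show 7852573 + 6 * (i - 1134000 + 1) = 1048573 + 6 * (i + 1) by omega] at this
  have := e3 (i - 1701000) (by norm_num; omega)
  rwa [show 11254573 + 6 * (i - 1701000 + 1) = 1048573 + 6 * (i + 1) by omega] at this

theorem dir_5 : ∀ i < 2184534, Desc 1048576 380 (1048571 + 6 * (i + 1)) := by
  intro i hi
  obtain ⟨h0, h1, h2, h3⟩ := dir5
  have e0 := dall_sound (by norm_num) (by norm_num) (by norm_num) (by simp only [List.length_cons, List.length_nil]; norm_num) h0
  have e1 := dall_sound (by norm_num) (by norm_num) (by norm_num) (by simp only [List.length_cons, List.length_nil]; norm_num) h1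
  have e2 := dall_sound (by norm_num) (by norm_num) (by norm_num) (by simp only [List.length_cons, List.length_nil]; norm_num) h2
  have e3 := dall_sound (by norm_num) (by norm_num) (by norm_num) (by simp only [List.length_cons, List.length_nil]; norm_num) h3
  simp only [List.length_cons, List.length_nil] at e0 e1 e2 e3
  clear h0 h1 h2 h3
  rcases Nat.lt_or_ge i 567000 with c | c
  · exact e0 i (by norm_num; exact c)
  rcases Nat.lt_or_ge i 1134000 with c1 | c1
  · have := e1 (i - 567000) (by norm_num; omega)
    rwa [show 4450571 + 6 * (i - 567000 + 1) = 1048571 + 6 * (i + 1) by omega] at this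
  rcases Nat.lt_or_ge i 1701000 with c2 | c2
  · have := e2 (i - 1134000) (by norm_num; omega)
    rwa [show 7852571 + 6 * (i - 1134000 + 1) = 1048571 + 6 * (i + 1) by omega] at this
  have := e3 (i - 1701000) (by norm_num; omega)
  rwa [show 11254571 + 6 * (i - 1701000 + 1) = 1048571 + 6 * (i + 1) by omega] at this

theorem low : Hyp 1.25333 14155776 := low_hyp dir_1 dir_5

theorem pc0 : Piece 18 2 14155776 368 := fun _ h1 h2 h3 =>
  piece_sound (by norm_num) (by norm_num) (by norm_num) (by norm_num) (by norm_num) (by norm_num) piece_18_2 h1 h2 h3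

theorem hyp0 : Hyp 1.2533408609 21233664 :=
  stp (k0 := 18) (j := 2) (n := 368) (X := 14155776) (by norm_num) (by norm_num) (by norm_num) (by norm_num) (by norm_num)
    low pc0 (by norm_num) (by norm_num)

theorem pc1 : Piece 18 3 21233664 358 := fun _ h1 h2 h3 =>
  piece_sound (by norm_num) (by norm_num) (by norm_num) (by norm_num) (by norm_num) (by norm_num) piece_18_3 h1 h2 h3

theorem hyp1 : Hyp 1.2533479048 28311552 :=
  stp (k0 := 18) (j := 3) (n := 358) (X := 21233664) (by norm_num) (by norm_num) (by norm_num) (by norm_num) (by norm_num)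
    hyp0 pc1 (by norm_num) (by norm_num)

theorem pc2 : Piece 19 2 28311552 404 := fun _ h1 h2 h3 =>
  piece_sound (by norm_num) (by norm_num) (by norm_num) (by norm_num) (by norm_num) (by norm_num) piece_19_2 h1 h2 h3

theorem hyp2 : Hyp 1.2533538666 42467328 :=
  stp (k0 := 19) (j := 2) (n := 404) (X := 28311552) (by norm_num) (by norm_num) (by norm_num) (by norm_num) (by norm_num)
    hyp1 pc2 (by norm_num) (by norm_num)

theorem pc3 : Piece 19 3 42467328 359 := fun _ h1 h2 h3 =>
  piece_sound (by norm_num) (by norm_num) (by norm_num) (by norm_num) (by norm_num) (by norm_num) piece_19_3 h1 h2 h3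

theorem hyp3 : Hyp 1.2533573984 56623104 :=
  stp (k0 := 19) (j := 3) (n := 359) (X := 42467328) (by norm_num) (by norm_num) (by norm_num) (by norm_num) (by norm_num)
    hyp2 pc3 (by norm_num) (by norm_num)

theorem pc4 : Piece 20 2 56623104 440 := fun _ h1 h2 h3 =>
  piece_sound (by norm_num) (by norm_num) (by norm_num) (by norm_num) (by norm_num) (by norm_num) piece_20_2 h1 h2 h3

theorem hyp4 : Hyp 1.2533606449 84934656 :=
  stp (k0 := 20) (j := 2) (n := 440) (X := 56623104) (by norm_num) (by norm_num) (by norm_num) (by norm_num) (by norm_num)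
    hyp3 pc4 (by norm_num) (by norm_num)

theorem pc5 : Piece 20 3 84934656 415 := fun _ h1 h2 h3 =>
  piece_sound (by norm_num) (by norm_num) (by norm_num) (by norm_num) (by norm_num) (by norm_num) piece_20_3 h1 h2 h3

theorem hyp5 : Hyp 1.2533626863 113246208 :=
  stp (k0 := 20) (j := 3) (n := 415) (X := 84934656) (by norm_num) (by norm_num) (by norm_num) (by norm_num) (by norm_num)
    hyp4 pc5 (by norm_num) (by norm_num)

theorem pc6 : Piece 21 2 113246208 631 := fun _ h1 h2 h3 =>
  piece_sound (by norm_num) (by norm_num) (by norm_num) (by norm_num) (by norm_num) (by norm_num) piece_21_2 h1 h2 h3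

theorem hyp6 : Hyp 1.2533650142 169869312 :=
  stp (k0 := 21) (j := 2) (n := 631) (X := 113246208) (by norm_num) (by norm_num) (by norm_num) (by norm_num) (by norm_num)
    hyp5 pc6 (by norm_num) (by norm_num)

theorem pc7 : Piece 21 3 169869312 651 := fun _ h1 h2 h3 =>
  piece_sound (by norm_num) (by norm_num) (by norm_num) (by norm_num) (by norm_num) (by norm_num) piece_21_3 h1 h2 h3

theorem hyp7 : Hyp 1.2533666154 226492416 :=
  stp (k0 := 21) (j := 3) (n := 651) (X := 169869312) (by norm_num) (by norm_num) (by norm_num) (by norm_num) (by norm_num)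
    hyp6 pc7 (by norm_num) (by norm_num)

theorem pc8 : Piece 22 2 226492416 762 := fun _ h1 h2 h3 =>
  piece_sound (by norm_num) (by norm_num) (by norm_num) (by norm_num) (by norm_num) (by norm_num) piece_22_2 h1 h2 h3

theorem hyp8 : Hyp 1.2533680210 339738624 :=
  stp (k0 := 22) (j := 2) (n := 762) (X := 226492416) (by norm_num) (by norm_num) (by norm_num) (by norm_num) (by norm_num)
    hyp7 pc8 (by norm_num) (by norm_num)

theorem pc9 : Piece 22 3 339738624 957 := fun _ h1 h2 h3 =>
  piece_sound (by norm_num) (by norm_num) (by norm_num) (by norm_num) (by norm_num) (by norm_num) piece_22_3 h1 h2 h3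

theorem hyp9 : Hyp 1.2533691979 452984832 :=
  stp (k0 := 22) (j := 3) (n := 957) (X := 339738624) (by norm_num) (by norm_num) (by norm_num) (by norm_num) (by norm_num)
    hyp8 pc9 (by norm_num) (by norm_num)

theorem pc10 : Piece 23 2 452984832 928 := fun _ h1 h2 h3 =>
  piece_sound (by norm_num) (by norm_num) (by norm_num) (by norm_num) (by norm_num) (by norm_num) piece_23_2 h1 h2 h3

theorem hyp10 : Hyp 1.2533700538 679477248 :=
  stp (k0 := 23) (j := 2) (n := 928) (X := 452984832) (by norm_num) (by norm_num) (by norm_num) (by norm_num) (by norm_num)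
    hyp9 pc10 (by norm_num) (by norm_num)

theorem pc11 : Piece 23 3 679477248 918 := fun _ h1 h2 h3 =>
  piece_sound (by norm_num) (by norm_num) (by norm_num) (by norm_num) (by norm_num) (by norm_num) piece_23_3 h1 h2 h3

theorem hyp11 : Hyp 1.2533706183 905969664 :=
  stp (k0 := 23) (j := 3) (n := 918) (X := 679477248) (by norm_num) (by norm_num) (by norm_num) (by norm_num) (by norm_num)
    hyp10 pc11 (by norm_num) (by norm_num)

theorem pc12 : Piece 24 2 905969664 2064 := fun _ h1 h2 h3 =>
  piece_sound (by norm_num) (by norm_num) (by norm_num) (by norm_num) (by norm_num) (by norm_num) piece_24_2 h1 h2 h3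

theorem hyp12 : Hyp 1.2533715702 1358954496 :=
  stp (k0 := 24) (j := 2) (n := 2064) (X := 905969664) (by norm_num) (by norm_num) (by norm_num) (by norm_num) (by norm_num)
    hyp11 pc12 (by norm_num) (by norm_num)

theorem pc13 : Piece 24 3 1358954496 2019 := fun _ h1 h2 h3 =>
  piece_sound (by norm_num) (by norm_num) (by norm_num) (by norm_num) (by norm_num) (by norm_num) piece_24_3 h1 h2 h3

theorem hyp13 : Hyp 1.2533721910 1811939328 :=
  stp (k0 := 24) (j := 3) (n := 2019) (X := 1358954496) (by norm_num) (by norm_num) (by norm_num) (by norm_num) (by norm_num)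
    hyp12 pc13 (by norm_num) (by norm_num)

theorem pc14 : Piece 25 2 1811939328 2175 := fun _ h1 h2 h3 =>
  piece_sound (by norm_num) (by norm_num) (by norm_num) (by norm_num) (by norm_num) (by norm_num) piece_25_2 h1 h2 h3

theorem hyp14 : Hyp 1.2533726926 2717908992 :=
  stp (k0 := 25) (j := 2) (n := 2175) (X := 1811939328) (by norm_num) (by norm_num) (by norm_num) (by norm_num) (by norm_num)
    hyp13 pc14 (by norm_num) (by norm_num)

theorem pc15 : Piece 25 3 2717908992 2240 := fun _ h1 h2 h3 =>
  piece_sound (by norm_num) (by norm_num) (by norm_num) (by norm_num) (by norm_num) (by norm_num) piece_25_3 h1 h2 h3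

theorem hyp15 : Hyp 1.2533730370 3623878656 :=
  stp (k0 := 25) (j := 3) (n := 2240) (X := 2717908992) (by norm_num) (by norm_num) (by norm_num) (by norm_num) (by norm_num)
    hyp14 pc15 (by norm_num) (by norm_num)

theorem pc16 : Piece 26 2 3623878656 2236 := fun _ h1 h2 h3 =>
  piece_sound (by norm_num) (by norm_num) (by norm_num) (by norm_num) (by norm_num) (by norm_num) piece_26_2 h1 h2 h3

theorem hyp16 : Hyp 1.2533732948 5435817984 :=
  stp (k0 := 26) (j := 2) (n := 2236) (X := 3623878656) (by norm_num) (by norm_num) (by norm_num) (by norm_num) (by norm_num)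
    hyp15 pc16 (by norm_num) (by norm_num)

theorem pc17 : Piece 26 3 5435817984 2271 := fun _ h1 h2 h3 =>
  piece_sound (by norm_num) (by norm_num) (by norm_num) (by norm_num) (by norm_num) (by norm_num) piece_26_3 h1 h2 h3

theorem hyp17 : Hyp 1.2533734694 7247757312 :=
  stp (k0 := 26) (j := 3) (n := 2271) (X := 5435817984) (by norm_num) (by norm_num) (by norm_num) (by norm_num) (by norm_num)
    hyp16 pc17 (by norm_num) (by norm_num)

theorem pc18 : Piece 27 2 7247757312 2542 := fun _ h1 h2 h3 =>
  piece_sound (by norm_num) (by norm_num) (by norm_num) (by norm_num) (by norm_num) (by norm_num) piece_27_2 h1 h2 h3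

theorem hyp18 : Hyp 1.2533736160 10871635968 :=
  stp (k0 := 27) (j := 2) (n := 2542) (X := 7247757312) (by norm_num) (by norm_num) (by norm_num) (by norm_num) (by norm_num)
    hyp17 pc18 (by norm_num) (by norm_num)

theorem pc19 : Piece 27 3 10871635968 2587 := fun _ h1 h2 h3 =>
  piece_sound (by norm_num) (by norm_num) (by norm_num) (by norm_num) (by norm_num) (by norm_num) piece_27_3 h1 h2 h3

theorem hyp19 : Hyp 1.2533737155 14495514624 :=
  stp (k0 := 27) (j := 3) (n := 2587) (X := 10871635968) (by norm_num) (by norm_num) (by norm_num) (by norm_num) (by norm_num)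
    hyp18 pc19 (by norm_num) (by norm_num)

theorem pc20 : Piece 28 2 14495514624 2648 := fun _ h1 h2 h3 =>
  piece_sound (by norm_num) (by norm_num) (by norm_num) (by norm_num) (by norm_num) (by norm_num) piece_28_2 h1 h2 h3

theorem hyp20 : Hyp 1.2533737919 21743271936 :=
  stp (k0 := 28) (j := 2) (n := 2648) (X := 14495514624) (by norm_num) (by norm_num) (by norm_num) (by norm_num) (by norm_num)
    hyp19 pc20 (by norm_num) (by norm_num)

theorem pc21 : Piece 28 3 21743271936 2618 := fun _ h1 h2 h3 =>
  piece_sound (by norm_num) (by norm_num) (by norm_num) (by norm_num) (by norm_num) (by norm_num) piece_28_3 h1 h2 h3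

theorem hyp21 : Hyp 1.2533738423 28991029248 :=
  stp (k0 := 28) (j := 3) (n := 2618) (X := 21743271936) (by norm_num) (by norm_num) (by norm_num) (by norm_num) (by norm_num)
    hyp20 pc21 (by norm_num) (by norm_num)

theorem pc22 : Piece 29 2 28991029248 2994 := fun _ h1 h2 h3 =>
  piece_sound (by norm_num) (by norm_num) (by norm_num) (by norm_num) (by norm_num) (by norm_num) piece_29_2 h1 h2 h3

theorem hyp22 : Hyp 1.2533738855 43486543872 :=
  stp (k0 := 29) (j := 2) (n := 2994) (X := 28991029248) (by norm_num) (by norm_num) (by norm_num) (by norm_num) (by norm_num)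
    hyp21 pc22 (by norm_num) (by norm_num)

theorem pc23 : Piece 29 3 43486543872 2939 := fun _ h1 h2 h3 =>
  piece_sound (by norm_num) (by norm_num) (by norm_num) (by norm_num) (by norm_num) (by norm_num) piece_29_3 h1 h2 h3

theorem hyp23 : Hyp 1.2533739138 57982058496 :=
  stp (k0 := 29) (j := 3) (n := 2939) (X := 43486543872) (by norm_num) (by norm_num) (by norm_num) (by norm_num) (by norm_num)
    hyp22 pc23 (by norm_num) (by norm_num)

theorem pc24 : Piece 28 8 57982058496 2533 := fun _ h1 h2 h3 =>
  piece_sound (by norm_num) (by norm_num) (by norm_num) (by norm_num) (by norm_num) (by norm_num) piece_28_8 h1 h2 h3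

theorem hyp24 : Hyp 1.2533739321 65229815808 :=
  stp (k0 := 28) (j := 8) (n := 2533) (X := 57982058496) (by norm_num) (by norm_num) (by norm_num) (by norm_num) (by norm_num)
    hyp23 pc24 (by norm_num) (by norm_num)

/-- All numbers prime to 3 below `243 * 2^28`. -/
theorem verified : ∀ x : ℕ, x % 3 ≠ 0 → x < 65229815808 → Good 1.2535 x :=
  hyp_good hyp24 (by norm_num)

theorem small : ∀ x : ℕ, 0 < x → x < 1048576 → Good 1.2535 x :=
  fun _ h0 h => good_mono (by norm_num) (small_good h0 h)

end H86P
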