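import Pool.Agent.H86.P.PKill

/-! # Module PChain: one piece, chains of pieces

`piece_step` : strong induction on `x` for `x < 27 * 2^k0 * (j+1)`. For `x < X = 27 * 2^k0 * j` the hypothesis (the constant
grows). For `X ≤ x`: if `x` is not a root, `init_kill`; if not `Alive k0 x`, `late_kill` (with the new constant `M' = M exp (n/(3X))`
and the induction hypothesis); else `Piece` gives `Desc X n x`, and `good_desc`-like: the first element `y < X` satisfies
`Good (M exp(-185/y)) y` (or `Good M0 y`, `M0 ≤ M exp (-192/x0) ≤ M exp(-185/x)`), and `exp (-185/y) ≤ exp (-185/x)` because `y < x`.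
To apply `good_desc` use the constant `M exp (-185/x)` for all `y < X ≤ x`: `Good` is monotone in the constant. -/

namespace H86P

open H1Col H86V
open H86C (Good)

private theorem pc_exp_le {y x : ℕ} (hy : 0 < y) (h : y ≤ x) :
    Real.exp (-185 / (y : ℝ)) ≤ Real.exp (-185 / (x : ℝ)) := by
  apply Real.exp_le_exp.2
  have hy' : (0 : ℝ) < y := by exact_mod_cast hy
  have hxy : (y : ℝ) ≤ x := by exact_mod_cast h
  rw [neg_div, neg_div]
  exact neg_le_neg (div_le_div_of_nonneg_left (by norm_num) hy' hxy)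

private theorem pc_exp_one (x : ℕ) : Real.exp (-185 / (x : ℝ)) ≤ 1 := by
  rw [Real.exp_le_one_iff, neg_div]
  have : (0 : ℝ) ≤ 185 / (x : ℝ) := by positivity
  linarith

private theorem pc_low {M M0 : ℝ} (h0 : 0 < M0) (hM0 : M0 * Real.exp (192 / 14155776) ≤ M) {x : ℕ}
    (hx : 14155776 ≤ x) : M0 ≤ M * Real.exp (-185 / (x : ℝ)) := by
  have hx' : (14155776 : ℝ) ≤ x := by exact_mod_cast hx
  have h1 : -(192 / 14155776 : ℝ) ≤ -185 / (x : ℝ) := by
    rw [neg_div]
    apply neg_le_neg
    exact (div_le_div_of_nonneg_left (by norm_num) (by norm_num) hx').trans (by norm_num)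
  have h2 : M0 = M0 * Real.exp (192 / 14155776) * Real.exp (-(192 / 14155776)) := by
    rw [mul_assoc, ← Real.exp_add, add_neg_cancel, Real.exp_zero, mul_one]
  have hM : 0 < M := lt_of_lt_of_le (mul_pos h0 (Real.exp_pos _)) hM0
  rw [h2]
  exact mul_le_mul hM0 (Real.exp_le_exp.2 h1) (Real.exp_pos _).le hM.le

theorem piece_step {M : ℝ} {k0 j n : ℕ} (hk : k0 ≤ 29) (hj : 1 ≤ j) (hX : 14155776 ≤ 27 * 2 ^ k0 * j)
    (h : Hyp M (27 * 2 ^ k0 * j)) (hp : Piece k0 j (27 * 2 ^ k0 * j) n) :
    Hyp (M * Real.exp ((n : ℝ) / (3 * (27 * 2 ^ k0 * j : ℕ)))) (27 * 2 ^ k0 * (j + 1)) := by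
  obtain ⟨M0, h00, hM0, hlow⟩ := h.low
  have hE : 1 ≤ Real.exp ((n : ℝ) / (3 * (27 * 2 ^ k0 * j : ℕ))) := by
    apply Real.one_le_exp
    positivity
  set E : ℝ := Real.exp ((n : ℝ) / (3 * (27 * 2 ^ k0 * j : ℕ))) with hEdef
  have hMM : M ≤ M * E := le_mul_of_one_le_right h.pos.le hE
  have hpos : 0 < M * E := lt_of_lt_of_le h.pos hMM
  have hM0' : M0 * Real.exp (192 / 14155776) ≤ M * E := hM0.trans hMM
  refine ⟨hpos, ⟨M0, h00, hM0', hlow⟩, ?_⟩
  intro x
  induction x using Nat.strong_induction_on with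
  | _ x ih =>
    intro hu hx hlt
    by_cases hxX : x < 27 * 2 ^ k0 * j
    · exact good_mono (mul_le_mul_of_nonneg_right hMM (Real.exp_pos _).le) (h.high x hu hx hxX)
    have hXx : 27 * 2 ^ k0 * j ≤ x := not_lt.1 hxX
    have hbel : Below (M * E) M0 x := ⟨hlow, fun z hz hz0 hzx => ih z hzx hz hz0 (hzx.trans hlt)⟩
    by_cases hr : Root x
    · by_cases ha : Alive k0 x
      · have hdiv : x / (27 * 2 ^ k0) = j := by
          apply Nat.div_eq_of_lt_le
          · rw [mul_comm]
            exact hXx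
          · rw [mul_comm]
            exact hlt
        have hd := hp x hdiv hr ha
        have hg : ∀ y : ℕ, y % 3 ≠ 0 → y < 27 * 2 ^ k0 * j → Good (M * Real.exp (-185 / (x : ℝ))) y := by
          intro y hy hyX
          by_cases hy0 : y < 14155776
          · exact good_mono (pc_low h00 hM0 hx) (hlow y hy hy0)
          · have hy1 : 14155776 ≤ y := not_lt.1 hy0
            refine good_mono ?_ (h.high y hy hy1 hyX)
            exact mul_le_mul_of_nonneg_left (pc_exp_le (by omega) (by omega)) h.pos.le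
        have h1 := good_desc (mul_pos h.pos (Real.exp_pos _)).le hu (by omega) hd hg
        have h2 : M * E * Real.exp (-185 / (x : ℝ)) = M * Real.exp (-185 / (x : ℝ)) * E := by ring
        rw [h2]
        exact h1
      · exact late_kill hpos h00 hM0' hx hu hk ha hbel
    · exact init_kill hpos h00 hM0' hx hu hr hbel

/-- The final constant: `M` grows by the factor `exp (n/(3X))` at each piece, the limit is clear of `-185/x`. -/
theorem hyp_good {M M' : ℝ} {X : ℕ} (h : Hyp M X) (hM : M ≤ M') : ∀ x : ℕ, x % 3 ≠ 0 → x < X → Good M' x := by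
  intro x hu hx
  obtain ⟨M0, h00, hM0, hlow⟩ := h.low
  by_cases hx0 : x < 14155776
  · refine good_mono ?_ (hlow x hu hx0)
    have h1 : M0 ≤ M0 * Real.exp (192 / 14155776) :=
      le_mul_of_one_le_right h00.le (Real.one_le_exp (by norm_num))
    exact h1.trans (hM0.trans hM)
  · refine good_mono ?_ (h.high x hu (not_lt.1 hx0) hx)
    exact (mul_le_of_le_one_right h.pos.le (pc_exp_one x)).trans hM

/-- A chain of pieces: list of `(k0, j, n)`. -/
theorem hyp_mono {M M' : ℝ} {X : ℕ} (h : Hyp M X) (hM : M ≤ M') : Hyp M' X := by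
  obtain ⟨M0, h00, hM0, hlow⟩ := h.low
  refine ⟨lt_of_lt_of_le h.pos hM, ⟨M0, h00, hM0.trans hM, hlow⟩, fun x hu hx0 hx => ?_⟩
  exact good_mono (mul_le_mul_of_nonneg_right hM (Real.exp_pos _).le) (h.high x hu hx0 hx)

end H86P
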