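import Pool.Agent.H86.V.Base
import Pool.Agent.H86.C.Def

/-! Verified range: from the kernel facts on pieces to `Good 1.2535 x` for all `x < 243 * 2^28` prime to 3
(`Good M x` : `x` reaches `1` and `2^N ≤ M 3^od x`, see `Pool/Agent/H86/C/Def.lean`). `U x` : `x > 0` prime to 3. -/

namespace H86P

open H1Col H86V
open H86C (Good)

/-- `27 * 2^19`. -/
def x0 : ℕ := 14155776

/-- Everything prime to 3 in `[x0, X)` is good with constant `M exp (-185/x)`, everything below `x0` with a smaller
constant. -/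
structure Hyp (M : ℝ) (X : ℕ) : Prop where
  pos : 0 < M
  low : ∃ M0 : ℝ, 0 < M0 ∧ M0 * Real.exp (192 / 14155776) ≤ M ∧ ∀ x : ℕ, x % 3 ≠ 0 → x < 14155776 → Good M0 x
  high : ∀ x : ℕ, x % 3 ≠ 0 → 14155776 ≤ x → x < X → Good (M * Real.exp (-185 / x)) x

/-- The statement of a verified piece: alive members of the roots descend below `X` in `n` steps. -/
def Piece (k0 j X n : ℕ) : Prop := ∀ x : ℕ, x / (27 * 2 ^ k0) = j → Root x → Alive k0 x → Desc X n x

end H86P
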