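import Pool.Agent.H86.P.PTr

/-! # Module PKill: the killed classes

`init_kill` : `x` prime to 3 and not a root. Then `x ≡ 2, 8 mod 9` (residues `2, 11, 20, 8, 17, 26` modulo 27) or
`x ≡ 13, 22 mod 27`.
* `x ≡ 2, 8 mod 9`: `z = (2x-1)/3` is odd, prime to 3, `T z = x`, `z < x` (`z > 1` as `x ≥ 14`); `good_pred`.
* `x ≡ 13, 22 mod 27`: `z = (8x-5)/9`, odd, prime to 3 (`8x - 5 ≡ 99, 171 mod 216`), `T z = (4x-1)/3` odd, `T^2 z = 2x`,
  `T^3 z = x`: `good_pred` twice, `good_pred_even`.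

`late_kill` : `x ≥ x0` prime to 3, `k ≤ 29`, not `Alive k x`. Let `i` be the least level `1 ≤ i ≤ k` with
`al i (od x i) (T^i x % 9) = false`; `al` unfolds to: true iff (`r = 2` or `8`, i.e. bit `r` of `260`, and
`29 * 2^i + 1 ≤ 20 * 3^o`) or (other `r`, `29 * 2^i + 1 ≤ 30 * 3^o`). Put `y = T^i x`, `o = od x i`.
* For `l < i` with `l ≥ 1` the class was alive: `29 * 2^l < 30 * 3^(od x l)`, so by `three_pow_le` `T^l x ≥ (29/30) x`; also for
  `l = 0`. Killed at `i`: `30 * 3^o ≤ 29 * 2^i` or `20 * 3^o ≤ 29 * 2^i`, so `3^o < 3^19` (`i ≤ 29`: `29 * 2^29 / 20 < 3^19`), `o ≤ 18`, and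
  `Sm x i ≤ 18 * (30/29) / (3x) ≤ 6.21/x` (only the `o` odd elements count: as `Sm_le_od` of
  `Pool/Agent/H1/Col/Main.lean`, `Sm x i ≤ (od x i) / (3 * (29/30) x)`).
* `2^i y ≤ 3^o x exp (Sm x i)` (`two_pow_le_exp`), `exp (6.21/x0) ≤ 1.0000005`.
  Case `r ≠ 2, 8`: take `z = y ≤ (29/30) * 1.0000005 x`, `Good M z → Good (M exp(Sm)) x` (`good_iter`).
  Case `r = 2, 8`: `z = (2y-1)/3`, odd, prime to 3, `T z = y`, `z ≤ (2/3) y ≤ (2/3)(29/20) 1.0000005 x`; `Good M z → Good M y` (`good_pred`).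
Both: `z ≤ 0.9667 x`, `z > 1` (`y ≥ x 3^o / 2^i` is large: in the first case only `z > 0` is needed; in the second
`y ≥ (29/30)/3 x`-ish since level `i - 1` was alive and one step at most halves), `z < x`.
`use_kill` : with `Hyp`-like information on everything smaller. If `z ≥ x0`: `Good (M exp(-185/z)) z` gives
`Good (M exp (-185/z + 6.21/x)) x` and `-185/z + 6.21/x ≤ -185/x` as `z ≤ 0.9667 x` (`185 * (1/0.9667 - 1) = 6.37 ≥ 6.21`). If
`z < x0`: `Good M0 z`, `M0 exp (6.21/x) ≤ M exp (-192/x0 + 6.21/x) ≤ M exp (-185/x)` (`x ≥ x0`). -/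

namespace H86P

open H1Col H86V
open H86C (Good)

/-- Everything prime to 3 below `x` is good in the sense of `Hyp`. -/
def Below (M M0 : ℝ) (x : ℕ) : Prop :=
  (∀ z : ℕ, z % 3 ≠ 0 → z < 14155776 → Good M0 z) ∧
  (∀ z : ℕ, z % 3 ≠ 0 → 14155776 ≤ z → z < x → Good (M * Real.exp (-185 / z)) z)

private theorem al_spec {i o r : ℕ} (hr : r < 9) : al i o r = true ↔
    if r = 2 ∨ r = 8 then 29 * 2 ^ i + 1 ≤ 20 * 3 ^ o else 29 * 2 ^ i + 1 ≤ 30 * 3 ^ o := by
  have hb : Nat.beq (Nat.land (Nat.shiftRight 260 r) 1) 1 = decide (r = 2 ∨ r = 8) := by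
    interval_cases r <;> rfl
  have hs : Nat.shiftLeft 1 i = 2 ^ i := by
    have := Nat.one_shiftLeft i
    exact this
  unfold al
  rw [hb, hs]
  by_cases h : r = 2 ∨ r = 8
  · rw [if_pos h, decide_eq_true h]
    show Nat.ble _ _ = true ↔ _
    rw [Nat.ble_eq]
    exact Iff.rfl
  · rw [if_neg h, decide_eq_false h]
    show Nat.ble _ _ = true ↔ _
    rw [Nat.ble_eq]
    exact Iff.rfl

/-- From `z` to `x`: the final comparison of the constants. -/
private theorem finish {M M0 : ℝ} (hM : 0 < M) (h0 : 0 < M0) (hM0 : M0 * Real.exp (192 / 14155776) ≤ M) {x z : ℕ}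
    (hx : 14155776 ≤ x) (hz3 : z % 3 ≠ 0) (hzx : z < x) (hb : Below M M0 x) {s : ℝ} (hs : s ≤ 6.21 / x)
    (hzs : s ≤ 185 / z - 185 / x)
    (hg : ∀ M' : ℝ, 0 ≤ M' → Good M' z → Good (M' * Real.exp s) x) : Good (M * Real.exp (-185 / x)) x := by
  have hxr : (14155776 : ℝ) ≤ x := by exact_mod_cast hx
  have hxp : (0 : ℝ) < x := by linarith
  by_cases hzx0 : z < 14155776
  · refine good_mono ?_ (hg M0 h0.le (hb.1 z hz3 hzx0))
    have e1 : M0 ≤ M * Real.exp (-(192 / 14155776)) := by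
      rw [Real.exp_neg, ← div_eq_mul_inv, le_div_iff₀ (Real.exp_pos _)]
      exact hM0
    calc M0 * Real.exp s ≤ M * Real.exp (-(192 / 14155776)) * Real.exp s :=
          mul_le_mul_of_nonneg_right e1 (Real.exp_pos _).le
      _ = M * Real.exp (-(192 / 14155776) + s) := by rw [mul_assoc, ← Real.exp_add]
      _ ≤ M * Real.exp (-185 / x) := by
          refine mul_le_mul_of_nonneg_left (Real.exp_le_exp.mpr ?_) hM.le
          have e2 : (191.21 : ℝ) / x ≤ 191.21 / 14155776 := by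
            apply div_le_div_of_nonneg_left (by norm_num) (by norm_num) hxr
          have e3 : (191.21 : ℝ) / x = 185 / x + 6.21 / x := by ring
          have e4 : (-185 : ℝ) / x = -(185 / x) := by ring
          rw [e4]
          have e5 : (191.21 : ℝ) / 14155776 ≤ 192 / 14155776 := by norm_num
          linarith
  · push Not at hzx0
    have hzp : (0 : ℝ) < z := by
      have : 0 < z := by omega
      exact_mod_cast this
    refine good_mono ?_ (hg _ (by positivity) (hb.2 z hz3 hzx0 hzx))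
    rw [mul_assoc, ← Real.exp_add]
    refine mul_le_mul_of_nonneg_left (Real.exp_le_exp.mpr ?_) hM.le
    have e4 : (-185 : ℝ) / x = -(185 / x) := by ring
    have e5 : (-185 : ℝ) / z = -(185 / z) := by ring
    rw [e4, e5]
    linarith

theorem init_kill {M M0 : ℝ} (hM : 0 < M) (h0 : 0 < M0) (hM0 : M0 * Real.exp (192 / 14155776) ≤ M) {x : ℕ}
    (hx : 14155776 ≤ x) (hu : x % 3 ≠ 0) (hr : ¬ Root x) (hb : Below M M0 x) :
    Good (M * Real.exp (-185 / x)) x := by
  have hxr : (14155776 : ℝ) ≤ x := by exact_mod_cast hx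
  have hxp : (0 : ℝ) < x := by linarith
  have key : ∀ z : ℕ, z % 3 ≠ 0 → 0 < z → z < x → (∀ M' : ℝ, 0 ≤ M' → Good M' z → Good M' x) →
      Good (M * Real.exp (-185 / x)) x := by
    intro z hz3 hz0 hzx hg
    have hzp : (0 : ℝ) < z := by exact_mod_cast hz0
    have hzx' : (z : ℝ) ≤ x := by exact_mod_cast hzx.le
    refine finish hM h0 hM0 hx hz3 hzx hb (s := 0) (by positivity) ?_ ?_
    · have := div_le_div_of_nonneg_left (show (0 : ℝ) ≤ 185 by norm_num) hzp hzx'
      linarith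
    · intro M' hM' h
      rw [Real.exp_zero, mul_one]
      exact hg M' hM' h
  unfold Root at hr
  by_cases h9 : x % 9 = 2 ∨ x % 9 = 8
  · obtain ⟨z, hz⟩ : ∃ z, 2 * x = 3 * z + 1 := ⟨(2 * x - 1) / 3, by omega⟩
    refine key z (by omega) (by omega) (by omega) ?_
    intro M' hM' h
    have h1 : T z = x := by
      rw [T_odd (by omega)]
      omega
    have h2 := good_pred hM' (z := z) (by omega) (by omega) h
    rwa [h1] at h2
  · have h27 : x % 27 = 13 ∨ x % 27 = 22 := by omega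
    obtain ⟨z, hz⟩ : ∃ z, 8 * x = 9 * z + 5 := ⟨(8 * x - 5) / 9, by omega⟩
    refine key z (by omega) (by omega) (by omega) ?_
    intro M' hM' h
    obtain ⟨w, hw⟩ : ∃ w, 4 * x = 3 * w + 1 := ⟨(4 * x - 1) / 3, by omega⟩
    have h1 : T z = w := by
      rw [T_odd (by omega)]
      omega
    have h2 : T w = 2 * x := by
      rw [T_odd (by omega)]
      omega
    have h3 : T (2 * x) = x := by
      rw [T_even (by omega)]
      omega
    have h4 := good_pred hM' (z := z) (by omega) (by omega) h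
    rw [h1] at h4
    have h5 := good_pred hM' (z := w) (by omega) (by omega) h4
    rw [h2] at h5
    have h6 := good_pred_even hM' (z := 2 * x) (by omega) (by omega) h5
    rwa [h3] at h6

private theorem Sm_le_al {x i : ℕ} (hx : 0 < x) (h : ∀ l < i, 29 * x ≤ 30 * T^[l] x) :
    Sm x i ≤ (od x i : ℝ) * (10 / (29 * x)) := by
  have hxp : (0 : ℝ) < x := by exact_mod_cast hx
  induction i with
  | zero => simp [Sm]
  | succ n ih =>
    have h6 := ih (fun l hl => h l (by omega))
    have h7 := h n (by omega)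
    have h7' : (29 : ℝ) * x ≤ 30 * ((T^[n] x : ℕ) : ℝ) := by exact_mod_cast h7
    rw [Sm_succ, od_succ]
    rcases Nat.mod_two_eq_zero_or_one (T^[n] x) with e | e
    · rw [e, if_neg (by norm_num)]
      simpa using h6
    · rw [e, if_pos rfl]
      push_cast
      have hp : (0 : ℝ) < ((T^[n] x : ℕ) : ℝ) := by linarith
      have h8 : 1 / (3 * ((T^[n] x : ℕ) : ℝ)) ≤ 10 / (29 * x) := by
        rw [div_le_div_iff₀ (by positivity) (by positivity)]
        linarith
      rw [add_mul, one_mul]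
      linarith

theorem late_kill {M M0 : ℝ} (hM : 0 < M) (h0 : 0 < M0) (hM0 : M0 * Real.exp (192 / 14155776) ≤ M) {x k : ℕ}
    (hx : 14155776 ≤ x) (hu : x % 3 ≠ 0) (hk : k ≤ 29) (ha : ¬ Alive k x) (hb : Below M M0 x) :
    Good (M * Real.exp (-185 / x)) x := by
  classical
  have hxr : (14155776 : ℝ) ≤ x := by exact_mod_cast hx
  have hxp : (0 : ℝ) < x := by linarith
  have hx0 : 0 < x := by omega
  have hex : ∃ i, 1 ≤ i ∧ i ≤ k ∧ ¬ al i (od x i) (T^[i] x % 9) = true := by
    unfold Alive at ha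
    push Not at ha
    obtain ⟨i, h1, h2, h3⟩ := ha
    exact ⟨i, h1, h2, h3⟩
  obtain ⟨hi1, hik, hi⟩ := Nat.find_spec hex
  have hmin : ∀ l, l < Nat.find hex → 1 ≤ l → al l (od x l) (T^[l] x % 9) = true := by
    intro l hl hl1
    have h1 := Nat.find_min hex hl
    by_contra h2
    exact h1 ⟨hl1, by omega, h2⟩
  generalize Nat.find hex = i at hi1 hik hi hmin
  have hlow : ∀ l < i, 29 * x ≤ 30 * T^[l] x := by
    intro l hl
    rcases Nat.eq_zero_or_pos l with h1 | h1
    · subst h1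
      rw [Function.iterate_zero, id_eq]
      omega
    · have h2 := (al_spec (Nat.mod_lt _ (by norm_num))).1 (hmin l hl h1)
      have h3 : 29 * 2 ^ l ≤ 30 * 3 ^ od x l := by
        split_ifs at h2 with h4
        · omega
        · omega
      have h5 := three_pow_le x l
      have h6 : 2 ^ l * (29 * x) ≤ 2 ^ l * (30 * T^[l] x) := by
        calc 2 ^ l * (29 * x) = (29 * 2 ^ l) * x := by ring
          _ ≤ (30 * 3 ^ od x l) * x := Nat.mul_le_mul_right _ h3
          _ = 30 * (3 ^ od x l * x) := by ring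
          _ ≤ 30 * (2 ^ l * T^[l] x) := Nat.mul_le_mul_left _ h5
          _ = 2 ^ l * (30 * T^[l] x) := by ring
      exact Nat.le_of_mul_le_mul_left h6 (by positivity)
  have hkill : (if T^[i] x % 9 = 2 ∨ T^[i] x % 9 = 8 then 20 * 3 ^ od x i ≤ 29 * 2 ^ i
      else 30 * 3 ^ od x i ≤ 29 * 2 ^ i) := by
    have h2 := mt (al_spec (i := i) (o := od x i) (Nat.mod_lt (T^[i] x) (show 0 < 9 by norm_num))).2 hi
    split_ifs at h2 ⊢ with h4
    · omega
    · omega
  have hkill2 : 20 * 3 ^ od x i ≤ 29 * 2 ^ i := by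
    split_ifs at hkill with h4
    · exact hkill
    · omega
  have ho : od x i ≤ 18 := by
    by_contra hcon
    push Not at hcon
    have h1 : 3 ^ 19 ≤ 3 ^ od x i := Nat.pow_le_pow_right (by norm_num) hcon
    have h2 : 2 ^ i ≤ 2 ^ 29 := Nat.pow_le_pow_right (by norm_num) (by omega)
    have h3 : (3 : ℕ) ^ 19 = 1162261467 := by norm_num
    have h4 : (2 : ℕ) ^ 29 = 536870912 := by norm_num
    omega
  have hS : Sm x i ≤ 180 / (29 * x) := by
    refine le_trans (Sm_le_al hx0 hlow) ?_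
    have h1 : (od x i : ℝ) ≤ 18 := by exact_mod_cast ho
    calc (od x i : ℝ) * (10 / (29 * x)) ≤ 18 * (10 / (29 * x)) := mul_le_mul_of_nonneg_right h1 (by positivity)
      _ = 180 / (29 * x) := by ring
  have hS1 : Sm x i ≤ 0.0000005 := by
    refine le_trans hS ?_
    rw [div_le_iff₀ (by positivity)]
    linarith
  have hS0 := Sm_nonneg x i
  have hexp : Real.exp (Sm x i) ≤ 1.000001 := by
    have h1 := Real.abs_exp_sub_one_sub_id_le (x := Sm x i) (by rw [abs_of_nonneg hS0]; linarith)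
    have h2 := (abs_le.1 h1).2
    nlinarith
  have hup := two_pow_le_exp hx0 i
  have hyu : T^[i] x % 3 ≠ 0 := T_unit hu i
  have h2i : (0 : ℝ) < 2 ^ i := by positivity
  -- the upper bound for the last element
  have hy : ∀ a : ℝ, 0 < a → a * 3 ^ od x i ≤ 29 * 2 ^ i → a * ((T^[i] x : ℕ) : ℝ) ≤ 29 * 1.000001 * x := by
    intro a hap hak
    have h1 : 2 ^ i * (a * ((T^[i] x : ℕ) : ℝ)) ≤ 2 ^ i * (29 * 1.000001 * x) := by
      calc 2 ^ i * (a * ((T^[i] x : ℕ) : ℝ)) = a * (2 ^ i * ((T^[i] x : ℕ) : ℝ)) := by ring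
        _ ≤ a * (3 ^ od x i * x * Real.exp (Sm x i)) := mul_le_mul_of_nonneg_left hup hap.le
        _ = (a * 3 ^ od x i) * (x * Real.exp (Sm x i)) := by ring
        _ ≤ (29 * 2 ^ i) * (x * Real.exp (Sm x i)) := mul_le_mul_of_nonneg_right hak (by positivity)
        _ ≤ (29 * 2 ^ i) * (x * 1.000001) :=
            mul_le_mul_of_nonneg_left (mul_le_mul_of_nonneg_left hexp hxp.le) (by positivity)
        _ = 2 ^ i * (29 * 1.000001 * x) := by ring
    exact le_of_mul_le_mul_left h1 h2i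
  -- the final step
  have fin : ∀ z : ℕ, z % 3 ≠ 0 → 0 < z → (z : ℝ) ≤ 0.9667 * x →
      (∀ M' : ℝ, 0 ≤ M' → Good M' z → Good M' (T^[i] x)) → Good (M * Real.exp (-185 / x)) x := by
    intro z hz3 hz0 hzx hg
    have hzp : (0 : ℝ) < z := by exact_mod_cast hz0
    have hzx' : z < x := by
      have : (z : ℝ) < x := by linarith
      exact_mod_cast this
    refine finish hM h0 hM0 hx hz3 hzx' hb (s := Sm x i) ?_ ?_ ?_
    · refine le_trans hS ?_
      rw [div_le_div_iff₀ (by positivity) hxp]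
      linarith
    · refine le_trans hS ?_
      have h1 : (185 : ℝ) / (0.9667 * x) ≤ 185 / z := div_le_div_of_nonneg_left (by norm_num) hzp hzx
      have h2 : (180 : ℝ) / (29 * x) + 185 / x ≤ 185 / (0.9667 * x) := by
        rw [div_add_div _ _ (by positivity) (by positivity), div_le_div_iff₀ (by positivity) (by positivity)]
        nlinarith [mul_pos hxp hxp]
      linarith
    · intro M' hM' h
      exact good_iter hM' hx0 (hg M' hM' h)
  by_cases h9 : T^[i] x % 9 = 2 ∨ T^[i] x % 9 = 8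
  · have h1 := hy 20 (by norm_num) (by exact_mod_cast hkill2)
    have hbig : 29 * x ≤ 60 * T^[i] x := by
      obtain ⟨j, rfl⟩ : ∃ j, i = j + 1 := ⟨i - 1, by omega⟩
      have h2 := hlow j (by omega)
      have h3 := le_two_T (T^[j] x)
      rw [← iter_succ] at h3
      omega
    generalize hyy : T^[i] x = y at *
    obtain ⟨z, hz⟩ : ∃ z, 2 * y = 3 * z + 1 := ⟨(2 * y - 1) / 3, by omega⟩
    have hzr : (2 : ℝ) * y = 3 * z + 1 := by exact_mod_cast hz
    refine fin z (by omega) (by omega) (by linarith) ?_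
    intro M' hM' h
    have h4 : T z = y := by
      rw [T_odd (by omega)]
      omega
    have h5 := good_pred hM' (z := z) (by omega) (by omega) h
    rwa [h4] at h5
  · rw [if_neg h9] at hkill
    have h1 := hy 30 (by norm_num) (by exact_mod_cast hkill)
    exact fin (T^[i] x) hyu (iter_pos hx0 i) (by linarith) (fun M' _ h => h)

end H86P
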