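import Pool.Agent.H86.P.PDef

/-! # Module PTr: transfer of `Good`

* `good_mono` : clear (`3^od x ≥ 0`).
* `good_iter` : `y = T^t x`, `T^N y = 1`, `2^N ≤ M 3^(od y N) y`: `T^(t+N) x = 1`, `od_add`, and
  `2^t y ≤ 3^(od x t) x exp (Sm x t)` (`H1Col.two_pow_le_exp`).
* `good_pred` : `z` odd, `z > 1`, `x = T z` : `N ≥ 1`, `T^(N-1) x = 1`, `od z N = 1 + od x (N-1)`, `3 z ≤ 2 x`.
* `good_pred_even` : `x = z / 2`.
* `good_two` : odd part: `Good M (x/2) → Good M x` for even `x`.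
* `Sm_le_len` : all elements before `n` at least `X`: each summand is at most `1/(3X)`. -/

namespace H86P

open H1Col H86V
open H86C (Good)

theorem good_mono {M M' : ℝ} (h : M ≤ M') {x : ℕ} (hx : Good M x) : Good M' x := by
  obtain ⟨N, h1, h2⟩ := hx
  refine ⟨N, h1, h2.trans ?_⟩
  gcongr

theorem good_iter {M : ℝ} (hM : 0 ≤ M) {x t : ℕ} (hx : 0 < x) (h : Good M (T^[t] x)) :
    Good (M * Real.exp (Sm x t)) x := by
  obtain ⟨N, h1, h2⟩ := h
  refine ⟨t + N, ?_, ?_⟩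
  · rw [Nat.add_comm, iter_add]
    exact h1
  · have h3 := two_pow_le_exp hx t
    have h4 : (0 : ℝ) ≤ M * 3 ^ od (T^[t] x) N := by positivity
    rw [od_add, pow_add, pow_add]
    calc (2 : ℝ) ^ t * 2 ^ N ≤ 2 ^ t * (M * 3 ^ od (T^[t] x) N * ((T^[t] x : ℕ) : ℝ)) := by gcongr
      _ = (M * 3 ^ od (T^[t] x) N) * (2 ^ t * ((T^[t] x : ℕ) : ℝ)) := by ring
      _ ≤ (M * 3 ^ od (T^[t] x) N) * (3 ^ od x t * x * Real.exp (Sm x t)) :=
          mul_le_mul_of_nonneg_left h3 h4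
      _ = _ := by ring

private theorem pred_aux {M : ℝ} {z : ℕ} (hz : 1 < z) (h : Good M z) :
    ∃ N, T^[N] (T z) = 1 ∧ (2 : ℝ) * 2 ^ N ≤ M * 3 ^ (z % 2 + od (T z) N) * z := by
  obtain ⟨N, h1, h2⟩ := h
  cases N with
  | zero =>
    rw [Function.iterate_zero, id] at h1
    omega
  | succ N =>
    refine ⟨N, ?_, ?_⟩
    · rw [← iter_succ_left]
      exact h1
    · rw [od_succ_left, pow_succ, mul_comm] at h2
      exact h2

theorem good_pred {M : ℝ} (hM : 0 ≤ M) {z : ℕ} (hz : 1 < z) (ho : z % 2 = 1) (h : Good M z) : Good M (T z) := by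
  obtain ⟨N, h1, h2⟩ := pred_aux hz h
  refine ⟨N, h1, ?_⟩
  rw [ho, pow_add, pow_one] at h2
  have h3 : (2 : ℝ) * ((T z : ℕ) : ℝ) = 3 * z + 1 := by exact_mod_cast two_T_odd ho
  have h4 : (0 : ℝ) ≤ M * 3 ^ od (T z) N := by positivity
  have h5 : (M * 3 ^ od (T z) N) * (3 * z) ≤ (M * 3 ^ od (T z) N) * (2 * ((T z : ℕ) : ℝ)) := by
    apply mul_le_mul_of_nonneg_left _ h4
    rw [h3]
    linarith
  have h6 : M * (3 * 3 ^ od (T z) N) * (z : ℝ) = (M * 3 ^ od (T z) N) * (3 * z) := by ring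
  rw [h6] at h2
  have h7 : (M * 3 ^ od (T z) N) * (2 * ((T z : ℕ) : ℝ)) = 2 * (M * 3 ^ od (T z) N * ((T z : ℕ) : ℝ)) := by ring
  rw [h7] at h5
  linarith

theorem good_pred_even {M : ℝ} (hM : 0 ≤ M) {z : ℕ} (hz : 1 < z) (he : z % 2 = 0) (h : Good M z) :
    Good M (T z) := by
  obtain ⟨N, h1, h2⟩ := pred_aux hz h
  refine ⟨N, h1, ?_⟩
  rw [he, Nat.zero_add] at h2
  have h3 : (2 : ℝ) * ((T z : ℕ) : ℝ) = z := by exact_mod_cast two_T_even he
  rw [← h3] at h2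
  have h7 : (M * 3 ^ od (T z) N) * (2 * ((T z : ℕ) : ℝ)) = 2 * (M * 3 ^ od (T z) N * ((T z : ℕ) : ℝ)) := by ring
  rw [h7] at h2
  linarith

theorem good_two {M : ℝ} {x : ℕ} (he : x % 2 = 0) (h : Good M (x / 2)) : Good M x := by
  obtain ⟨N, h1, h2⟩ := h
  have hT : T x = x / 2 := T_even he
  refine ⟨N + 1, ?_, ?_⟩
  · rw [iter_succ_left, hT]
    exact h1
  · rw [od_succ_left, hT, he, Nat.zero_add, pow_succ]
    have h3 : (2 : ℝ) * ((x / 2 : ℕ) : ℝ) = x := by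
      rw [← hT]
      exact_mod_cast two_T_even he
    have h7 : M * 3 ^ od (x / 2) N * (x : ℝ) = 2 * (M * 3 ^ od (x / 2) N * ((x / 2 : ℕ) : ℝ)) := by
      rw [← h3]
      ring
    rw [h7]
    linarith

theorem T_unit {x : ℕ} (h : x % 3 ≠ 0) (n : ℕ) : T^[n] x % 3 ≠ 0 := by
  induction n with
  | zero => exact h
  | succ n ih =>
    rw [iter_succ]
    generalize T^[n] x = y at ih
    rcases Nat.mod_two_eq_zero_or_one y with h1 | h1
    · have := two_T_even h1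
      omega
    · have := two_T_odd h1
      omega

theorem Sm_le_len {x n X : ℕ} (hX : 0 < X) (h : ∀ i < n, X ≤ T^[i] x) : Sm x n ≤ (n : ℝ) / (3 * X) := by
  have hX' : (0 : ℝ) < X := by exact_mod_cast hX
  unfold Sm
  have h1 : ∀ i ∈ Finset.range n,
      (if (T^[i] x) % 2 = 1 then 1 / (3 * ((T^[i] x : ℕ) : ℝ)) else 0) ≤ 1 / (3 * (X : ℝ)) := by
    intro i hi
    have h2 : (X : ℝ) ≤ ((T^[i] x : ℕ) : ℝ) := by exact_mod_cast h i (Finset.mem_range.1 hi)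
    split_ifs
    · apply one_div_le_one_div_of_le (by positivity)
      linarith
    · positivity
  refine (Finset.sum_le_card_nsmul _ _ _ h1).trans ?_
  rw [Finset.card_range, nsmul_eq_mul, mul_one_div]

/-- A descent: the first element below `X`. -/
theorem good_desc {M : ℝ} (hM : 0 ≤ M) {x X n : ℕ} (hx : x % 3 ≠ 0) (hX : 0 < X) (hd : Desc X n x)
    (h : ∀ y : ℕ, y % 3 ≠ 0 → y < X → Good M y) : Good (M * Real.exp ((n : ℝ) / (3 * X))) x := by
  classical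
  have hex : ∃ t, T^[t] x < X := by
    obtain ⟨t, _, ht⟩ := hd
    exact ⟨t, ht⟩
  have h1 : T^[Nat.find hex] x < X := Nat.find_spec hex
  have h2 : Nat.find hex ≤ n := by
    obtain ⟨t, ht, ht'⟩ := hd
    exact (Nat.find_min' hex ht').trans ht
  have h3 : ∀ i < Nat.find hex, X ≤ T^[i] x := fun i hi => not_lt.1 (Nat.find_min hex hi)
  have hx0 : 0 < x := by
    rcases Nat.eq_zero_or_pos x with h0 | h0
    · rw [h0] at hx
      exact absurd rfl hx
    · exact h0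
  refine good_mono ?_ (good_iter hM hx0 (h _ (T_unit hx _) h1))
  apply mul_le_mul_of_nonneg_left _ hM
  apply Real.exp_le_exp.2
  refine (Sm_le_len hX h3).trans ?_
  have hX' : (0 : ℝ) < X := by exact_mod_cast hX
  have h4 : ((Nat.find hex : ℕ) : ℝ) ≤ n := by exact_mod_cast h2
  gcongr

end H86P
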